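import Pool.Agent.Helper75.SZ.Cls

set_option autoImplicit false

/-!
# Restriction to a complement and merging a grid (piece MERGE of project SZ)
-/

open scoped NNReal

namespace Pool.Agent.Helper79.SZ

open Pool.Agent.Helper75.SZ

variable {V : Type} [AddCommGroup V] [Module ℝ V] {H : Set V}

theorem good_restrict (hG : Good H) {W W' : Submodule ℝ V} (hW : IsCompl W W')
    (h : ∀ x ∈ H, x ∈ W ∨ x ∈ W') : Good {x : W' | (x : V) ∈ H} := by
  refine ⟨?_, ?_, ?_, ?_⟩
  · intro x hx t ht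
    show ((t • x : W') : V) ∈ H
    rw [Submodule.coe_smul]
    exact hG.pos _ hx t ht
  · intro h0
    exact hG.ne h0
  · have key : ∀ y : V, y ∈ K H →
        Submodule.projectionOnto W' W hW.symm y ∈ K {x : W' | (x : V) ∈ H} := by
      intro y hy
      induction hy using Submodule.span_induction with
      | mem x hx =>
        rcases h x hx with h1 | h1
        · have : Submodule.projectionOnto W' W hW.symm x = 0 :=
            Submodule.projectionOnto_apply_right hW.symm ⟨x, h1⟩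
          rw [this]
          exact K_zero _
        · have : Submodule.projectionOnto W' W hW.symm x = ⟨x, h1⟩ :=
            Submodule.projectionOnto_apply_left hW.symm ⟨x, h1⟩
          rw [this]
          exact K_mem hx
      | zero =>
        rw [map_zero]
        exact K_zero _
      | add x y _ _ hx hy =>
        rw [map_add]
        exact K_add hx hy
      | smul a x _ hx =>
        have : Submodule.projectionOnto W' W hW.symm (a • x) =
            (a : ℝ) • Submodule.projectionOnto W' W hW.symm x := by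
          rw [← map_smul]
          rfl
        rw [this]
        exact K_smul hx a.2
    intro v
    have h1 := key (v : V) (hG.span v)
    rwa [Submodule.projectionOnto_apply_left hW.symm v] at h1
  · intro m v hv hvH hs
    refine hG.circ m (fun i => (v i : V)) ?_ hvH ?_
    · exact hv.map' W'.subtype (Submodule.ker_subtype W')
    · have h1 : ((-(∑ i, v i) : W') : V) ∈ H := hs
      rw [Submodule.coe_neg, Submodule.coe_sum] at h1
      exact h1

/-- Splitting off the extra grid. -/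
def splitEquiv (I J M L : Type) :
    I ⊕ J ⊕ (M × Fin 2) ⊕ (Option L × Fin 2 × Fin 2) ≃
      (I ⊕ J ⊕ (M × Fin 2) ⊕ (L × Fin 2 × Fin 2)) ⊕ (Fin 2 × Fin 2) where
  toFun x := match x with
    | Sum.inl i => Sum.inl (Sum.inl i)
    | Sum.inr (Sum.inl j) => Sum.inl (Sum.inr (Sum.inl j))
    | Sum.inr (Sum.inr (Sum.inl k)) => Sum.inl (Sum.inr (Sum.inr (Sum.inl k)))
    | Sum.inr (Sum.inr (Sum.inr (some l, p))) => Sum.inl (Sum.inr (Sum.inr (Sum.inr (l, p))))
    | Sum.inr (Sum.inr (Sum.inr (none, p))) => Sum.inr p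
  invFun x := match x with
    | Sum.inl (Sum.inl i) => Sum.inl i
    | Sum.inl (Sum.inr (Sum.inl j)) => Sum.inr (Sum.inl j)
    | Sum.inl (Sum.inr (Sum.inr (Sum.inl k))) => Sum.inr (Sum.inr (Sum.inl k))
    | Sum.inl (Sum.inr (Sum.inr (Sum.inr (l, p)))) => Sum.inr (Sum.inr (Sum.inr (some l, p)))
    | Sum.inr p => Sum.inr (Sum.inr (Sum.inr (none, p)))
  left_inv x := by
    rcases x with i | j | k | ⟨l | l, p⟩ <;> rfl
  right_inv x := by
    rcases x with (i | j | k | ⟨l, p⟩) | p <;> rfl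

/-- The merged family of grids. -/
def vNew {L : Type} {W' : Submodule ℝ V} (v : Fin 3 → Fin 3 → V)
    (v' : L → Fin 3 → Fin 3 → W') : Option L → Fin 3 → Fin 3 → V
  | none => v
  | some l => fun i j => (v' l i j : V)

theorem fam_new {I J M L : Type} {W' : Submodule ℝ V} (v : Fin 3 → Fin 3 → V)
    (u : I → W') (w : J → W') (z : M → Fin 2 → W') (v' : L → Fin 3 → Fin 3 → W') :
    fam (fun i => (u i : V)) (fun j => (w j : V)) (fun k a => (z k a : V)) (vNew v v') =
      Sum.elim (fun x => ((fam u w z v' x : W') : V))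
        (fun p : Fin 2 × Fin 2 => v (Fin.castSucc p.1) (Fin.castSucc p.2)) ∘
          splitEquiv I J M L := by
  funext x
  rcases x with i | j | k | ⟨l | l, p⟩ <;> rfl

theorem four_li {v : Fin 3 → Fin 3 → V} (hli : LinearIndependent ℝ ![v 0 0, v 0 1, v 1 0, v 1 1]) :
    LinearIndependent ℝ
      (fun p : Fin 2 × Fin 2 => v (Fin.castSucc p.1) (Fin.castSucc p.2)) := by
  have h1 := hli.comp (finProdFinEquiv : Fin 2 × Fin 2 ≃ Fin 4) finProdFinEquiv.injective
  have e : (![v 0 0, v 0 1, v 1 0, v 1 1] ∘ (finProdFinEquiv : Fin 2 × Fin 2 ≃ Fin 4)) =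
      (fun p : Fin 2 × Fin 2 => v (Fin.castSucc p.1) (Fin.castSucc p.2)) := by
    funext p
    rcases p with ⟨i, j⟩
    fin_cases i <;> fin_cases j <;> rfl
  rwa [e] at h1

theorem nine_le {v : Fin 3 → Fin 3 → V} (hv : Arr v) :
    Submodule.span ℝ (Set.range fun p : Fin 3 × Fin 3 => v p.1 p.2) ≤
      Submodule.span ℝ (Set.range
        fun p : Fin 2 × Fin 2 => v (Fin.castSucc p.1) (Fin.castSucc p.2)) := by
  set S := Submodule.span ℝ (Set.range
        fun p : Fin 2 × Fin 2 => v (Fin.castSucc p.1) (Fin.castSucc p.2)) with hS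
  have h00 : v 0 0 ∈ S := Submodule.subset_span ⟨(0, 0), rfl⟩
  have h01 : v 0 1 ∈ S := Submodule.subset_span ⟨(0, 1), rfl⟩
  have h10 : v 1 0 ∈ S := Submodule.subset_span ⟨(1, 0), rfl⟩
  have h11 : v 1 1 ∈ S := Submodule.subset_span ⟨(1, 1), rfl⟩
  have h02 : v 0 2 ∈ S := by
    have : v 0 2 = -(v 0 0 + v 0 1) := (neg_eq_of_add_eq_zero_right (hv.1 0)).symm
    rw [this]
    exact neg_mem (add_mem h00 h01)
  have h12 : v 1 2 ∈ S := by
    have : v 1 2 = -(v 1 0 + v 1 1) := (neg_eq_of_add_eq_zero_right (hv.1 1)).symm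
    rw [this]
    exact neg_mem (add_mem h10 h11)
  have h20 : v 2 0 ∈ S := by
    have : v 2 0 = -(v 0 0 + v 1 0) := (neg_eq_of_add_eq_zero_right (hv.2 0)).symm
    rw [this]
    exact neg_mem (add_mem h00 h10)
  have h21 : v 2 1 ∈ S := by
    have : v 2 1 = -(v 0 1 + v 1 1) := (neg_eq_of_add_eq_zero_right (hv.2 1)).symm
    rw [this]
    exact neg_mem (add_mem h01 h11)
  have h22 : v 2 2 ∈ S := by
    have : v 2 2 = -(v 0 2 + v 1 2) := (neg_eq_of_add_eq_zero_right (hv.2 2)).symm
    rw [this]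
    exact neg_mem (add_mem h02 h12)
  rw [Submodule.span_le]
  rintro _ ⟨⟨i, j⟩, rfl⟩
  fin_cases i <;> fin_cases j
  · exact h00
  · exact h01
  · exact h02
  · exact h10
  · exact h11
  · exact h12
  · exact h20
  · exact h21
  · exact h22

theorem ray_coe {W' : Submodule ℝ V} {x : W'} {y : W'} (h : x ∈ ray y) :
    (x : V) ∈ ray (y : V) := by
  obtain ⟨t, ht, rfl⟩ := h
  exact ⟨t, ht, rfl⟩

theorem cls_merge {v : Fin 3 → Fin 3 → V} (hv : Grid H v) {W' : Submodule ℝ V}
    (hW : IsCompl (Submodule.span ℝ (Set.range fun p : Fin 3 × Fin 3 => v p.1 p.2)) W')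
    (h : ∀ x ∈ H, x ∉ W' → ∃ i j, x ∈ ray (v i j)) (hc : Cls {x : W' | (x : V) ∈ H}) :
    Cls H := by
  obtain ⟨I, J, M, L, u, w, z, v', f, hC⟩ := hc
  have hle : Submodule.span ℝ (Set.range fun x => ((fam u w z v' x : W') : V)) ≤ W' := by
    rw [Submodule.span_le]
    rintro _ ⟨x, rfl⟩
    exact (fam u w z v' x).2
  have hle2 : Submodule.span ℝ (Set.range
      fun p : Fin 2 × Fin 2 => v (Fin.castSucc p.1) (Fin.castSucc p.2)) ≤
      Submodule.span ℝ (Set.range fun p : Fin 3 × Fin 3 => v p.1 p.2) := by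
    rw [Submodule.span_le]
    rintro _ ⟨p, rfl⟩
    exact Submodule.subset_span ⟨(Fin.castSucc p.1, Fin.castSucc p.2), rfl⟩
  refine ⟨I, J, M, Option L, fun i => (u i : V), fun j => (w j : V), fun k a => (z k a : V),
    vNew v v', f, ?_, ?_, ?_, ?_, ?_, ?_⟩
  · rw [fam_new]
    apply LinearIndependent.comp _ _ (splitEquiv I J M L).injective
    apply LinearIndependent.sum_type
    · exact hC.li.map' W'.subtype (Submodule.ker_subtype W')
    · exact four_li hv.li
    · exact Disjoint.mono hle hle2 hW.disjoint.symm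
  · rw [fam_new, (splitEquiv I J M L).surjective.range_comp, Set.Sum.elim_range,
      Submodule.span_union, ← hW.symm.sup_eq_top]
    apply sup_le_sup
    · intro x hx
      have h1 : (⟨x, hx⟩ : W') ∈ Submodule.span ℝ (Set.range (fam u w z v')) :=
        hC.span Submodule.mem_top
      have h2 : W'.subtype ⟨x, hx⟩ ∈
          (Submodule.span ℝ (Set.range (fam u w z v'))).map W'.subtype :=
        Submodule.mem_map_of_mem h1
      rw [Submodule.map_span, ← Set.range_comp] at h2
      exact h2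
    · exact nine_le hv.arr
  · intro l
    cases l with
    | none => exact hv.arr
    | some l =>
      constructor
      · intro i
        exact congrArg (fun x : W' => (x : V)) ((hC.arr l).1 i)
      · intro j
        exact congrArg (fun x : W' => (x : V)) ((hC.arr l).2 j)
  · intro i
    exact hC.memu i
  · intro l i j
    cases l with
    | none => exact hv.mem i j
    | some l => exact hC.memv l i j
  · intro x hx
    by_cases hxW : x ∈ W'
    · rcases hC.all ⟨x, hxW⟩ hx with ⟨i, h1⟩ | ⟨i, i', α, β, h1, h2, h3⟩ |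
        ⟨j, α, β, h1, h2⟩ | ⟨k, h1⟩ | ⟨l, i, j, h1⟩
      · exact Or.inl ⟨i, ray_coe h1⟩
      · refine Or.inr (Or.inl ⟨i, i', α, β, h1, h2, ?_⟩)
        have := congrArg (fun x : W' => (x : V)) h3
        simpa using this
      · refine Or.inr (Or.inr (Or.inl ⟨j, α, β, h1, ?_⟩))
        have := congrArg (fun x : W' => (x : V)) h2
        simpa using this
      · refine Or.inr (Or.inr (Or.inr (Or.inl ⟨k, ?_⟩)))
        obtain ⟨a, b, hab⟩ := Submodule.mem_span_pair.1 h1
        apply Submodule.mem_span_pair.2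
        refine ⟨a, b, ?_⟩
        have := congrArg (fun x : W' => (x : V)) hab
        simpa using this
      · exact Or.inr (Or.inr (Or.inr (Or.inr ⟨some l, i, j, ray_coe h1⟩)))
    · obtain ⟨i, j, hij⟩ := h x hx hxW
      exact Or.inr (Or.inr (Or.inr (Or.inr ⟨none, i, j, hij⟩)))

theorem clsFin_of_cls [FiniteDimensional ℝ V] (h : Cls H) : ClsFin H := by
  obtain ⟨I, J, M, L, u, w, z, v, f, hC⟩ := h
  have hfin : Finite (I ⊕ J ⊕ (M × Fin 2) ⊕ (L × Fin 2 × Fin 2)) :=
    hC.li.finite_of_isNoetherian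
  have hI : Finite I := Finite.of_injective
    (fun i => (Sum.inl i : I ⊕ J ⊕ (M × Fin 2) ⊕ (L × Fin 2 × Fin 2)))
    (fun a b hab => by simpa using hab)
  have hJ : Finite J := Finite.of_injective
    (fun j => (Sum.inr (Sum.inl j) : I ⊕ J ⊕ (M × Fin 2) ⊕ (L × Fin 2 × Fin 2)))
    (fun a b hab => by simpa using hab)
  have hM : Finite M := Finite.of_injective
    (fun k => (Sum.inr (Sum.inr (Sum.inl (k, 0))) :
      I ⊕ J ⊕ (M × Fin 2) ⊕ (L × Fin 2 × Fin 2)))
    (fun a b hab => by simpa using hab)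
  have hL : Finite L := Finite.of_injective
    (fun l => (Sum.inr (Sum.inr (Sum.inr (l, 0, 0))) :
      I ⊕ J ⊕ (M × Fin 2) ⊕ (L × Fin 2 × Fin 2)))
    (fun a b hab => by simpa using hab)
  obtain ⟨a, ⟨eI⟩⟩ := Finite.exists_equiv_fin I
  obtain ⟨b, ⟨eJ⟩⟩ := Finite.exists_equiv_fin J
  obtain ⟨c, ⟨eM⟩⟩ := Finite.exists_equiv_fin M
  obtain ⟨d, ⟨eL⟩⟩ := Finite.exists_equiv_fin L
  let E : Fin a ⊕ Fin b ⊕ (Fin c × Fin 2) ⊕ (Fin d × Fin 2 × Fin 2) ≃
      I ⊕ J ⊕ (M × Fin 2) ⊕ (L × Fin 2 × Fin 2) :=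
    Equiv.sumCongr eI.symm (Equiv.sumCongr eJ.symm (Equiv.sumCongr
      (Equiv.prodCongr eM.symm (Equiv.refl _)) (Equiv.prodCongr eL.symm (Equiv.refl _))))
  have hE : fam (fun i => u (eI.symm i)) (fun j => w (eJ.symm j)) (fun k => z (eM.symm k))
      (fun l => v (eL.symm l)) = fam u w z v ∘ E := by
    funext x
    rcases x with i | j | k | ⟨l, p⟩ <;> rfl
  refine ⟨a, b, c, d, fun i => u (eI.symm i), fun j => w (eJ.symm j), fun k => z (eM.symm k),
    fun l => v (eL.symm l), fun j => eI (f (eJ.symm j)), ?_, ?_, ?_, ?_, ?_, ?_⟩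
  · rw [hE]
    exact hC.li.comp _ E.injective
  · rw [hE, E.surjective.range_comp]
    exact hC.span
  · intro l
    exact hC.arr _
  · intro i
    exact hC.memu _
  · intro l i j
    exact hC.memv _ _ _
  · intro x hx
    rcases hC.all x hx with ⟨i, h1⟩ | ⟨i, i', α, β, h1, h2, h3⟩ |
        ⟨j, α, β, h1, h2⟩ | ⟨k, h1⟩ | ⟨l, i, j, h1⟩
    · refine Or.inl ⟨eI i, ?_⟩
      simpa using h1
    · refine Or.inr (Or.inl ⟨eI i, eI i', α, β, h1, h2, ?_⟩)
      simpa using h3
    · refine Or.inr (Or.inr (Or.inl ⟨eJ j, α, β, h1, ?_⟩))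
      simpa using h2
    · refine Or.inr (Or.inr (Or.inr (Or.inl ⟨eM k, ?_⟩)))
      simpa using h1
    · refine Or.inr (Or.inr (Or.inr (Or.inr ⟨eL l, i, j, ?_⟩)))
      simpa using h1

end Pool.Agent.Helper79.SZ
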